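import Pool.Agent.H546.APX

set_option autoImplicit false

/-!
# Sums of Apery polynomials at fifteen special arguments modulo `p²`

The proof. Both sides are polynomials in `1/x` (up to a power of `x`) whose coefficients satisfy first order recurrences
modulo `p²` (a Wilf-Zeilberger pair for `∑ C(n+k,2k)²`); together with the coefficients of `P(z) P(1-z)`, `1/x = 4z(1-z)`,
where `P` is the truncated expansion of `(1 - 4V + 4zV²)^((p-1)/2)`, they lie in a family which is linear in a parameter modulo
`p²`. So the congruence is equivalent to a relation between `P(z) P(1-z)` and the square of the Legendre polynomial of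
index `[p/4]` modulo `p²`. For the fifteen arguments the elliptic curve `y² = V³ - 4V² + 4zV` has complex multiplication
(discriminants `-7, -8, -12, -16, -20, -24, -28, -36, -40, -52, -72, -88, -100, -148, -232`). Over the Witt vectors of an
algebraic closure of `ZMod p` a combination of explicit isogenies of degree `p` lifts the Frobenius, and comparing
expansions modulo `p²` gives both values in terms of the multiplier, hence the relation. For the primes which are inert in
the field of the complex multiplication both sides vanish, and the primes up to `37` are done by evaluation.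
-/

open Finset

namespace Pool.Agent.Results.MP_a1c035_nt.AperySums

/-- the Apery polynomials `A_n(x) = ∑ C(n,k)² C(n+k,k)² x^k` -/
def A (n : ℕ) (x : ℚ) : ℚ := ∑ k ∈ range (n + 1), (n.choose k : ℚ) ^ 2 * ((n + k).choose k : ℚ) ^ 2 * x ^ k

/-- the fifteen arguments -/
def S : List ℚ := [1, -4, 9, -48, 81, -324, 2401, 9801, -25920, -777924, 96059601, 81 / 256, -9 / 16, 81 / 32, -3969 / 256]

/-- the Legendre symbol of a rational number `a/b`: `(a/p)(b/p)` -/
def leg (p : ℕ) [Fact p.Prime] (x : ℚ) : ℤ := legendreSym p x.num * legendreSym p x.den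

/-- congruence modulo `p²` in `ℤ_(p)`: `(a - b) / p²` has denominator prime to `p` -/
def Cong (p : ℕ) (a b : ℚ) : Prop := p.Coprime ((a - b) / (p : ℚ) ^ 2).den

/-- **Q1.** -/
theorem result (p : ℕ) [hp : Fact p.Prime] (h3 : 3 < p) (x : ℚ) (hx : x ∈ S) (hpx : ¬ (p : ℤ) ∣ x.num) :
    Cong p (∑ k ∈ range p, A k x)
      ((leg p x : ℚ) * ∑ k ∈ range p, (((4 * k).factorial : ℚ) / (k.factorial : ℚ) ^ 4) / (256 * x) ^ k) := by
  obtain ⟨M, hM, hMx⟩ : ∃ M ∈ Pool.Agent.H546.AP.Ms, (M : ℚ) = 256 * x := by
    simp only [S, List.mem_cons, List.mem_nil_iff, or_false] at hx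
    rcases hx with rfl | rfl | rfl | rfl | rfl | rfl | rfl | rfl | rfl | rfl | rfl | rfl | rfl | rfl | rfl
    · exact ⟨256, by decide, by norm_num⟩
    · exact ⟨-1024, by decide, by norm_num⟩
    · exact ⟨2304, by decide, by norm_num⟩
    · exact ⟨-12288, by decide, by norm_num⟩
    · exact ⟨20736, by decide, by norm_num⟩
    · exact ⟨-82944, by decide, by norm_num⟩
    · exact ⟨614656, by decide, by norm_num⟩
    · exact ⟨2509056, by decide, by norm_num⟩
    · exact ⟨-6635520, by decide, by norm_num⟩
    · exact ⟨-199148544, by decide, by norm_num⟩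
    · exact ⟨24591257856, by decide, by norm_num⟩
    · exact ⟨81, by decide, by norm_num⟩
    · exact ⟨-144, by decide, by norm_num⟩
    · exact ⟨648, by decide, by norm_num⟩
    · exact ⟨-3969, by decide, by norm_num⟩
  exact Pool.Agent.H546.AP.core_Q h3 hM hMx hpx

end Pool.Agent.Results.MP_a1c035_nt.AperySums
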